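import Pool.Agent.SGL.StmtsG

set_option autoImplicit false

/-!
Row MAT of squad SGL (MP_41797f_co): matching of levels and slices.
-/

namespace Pool.Agent.SGL.H66

theorem mat_aux {A B : Type} [Finite A] [Finite B] (p : A → ℕ) (r : B → ℕ)
    (hp : Function.Injective p) (hr : Function.Injective r) (hc : Nat.card A = Nat.card B) :
    ∃ e : A ≃ B, ∀ x y, p x < p y → r (e x) < r (e y) := by
  classical
  have i1 := Fintype.ofFinite A
  have i2 := Fintype.ofFinite B
  let o1 : LinearOrder A := LinearOrder.lift' p hp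
  let o2 : LinearOrder B := LinearOrder.lift' r hr
  obtain ⟨n, hn⟩ : ∃ n, Fintype.card A = n := ⟨_, rfl⟩
  have hB : Fintype.card B = n := by
    rw [← hn, ← Nat.card_eq_fintype_card, ← Nat.card_eq_fintype_card, hc]
  let e : A ≃o B := (monoEquivOfFin A hn).symm.trans (monoEquivOfFin B hB)
  refine ⟨e.toEquiv, fun x y h => ?_⟩
  have h1 : x < y := h
  have h2 : e x < e y := e.strictMono h1
  exact h2

/-- **MAT** -/
theorem mat : MatStmt := by
  intro A B _ _ l p s r hA hB hcard
  have h1 : ∀ i, ∃ e : {x // l x = i} ≃ {y // s y = i},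
      ∀ x y, p x.1 < p y.1 → r (e x).1 < r (e y).1 := by
    intro i
    refine mat_aux (fun x : {x // l x = i} => p x.1) (fun y : {y // s y = i} => r y.1) ?_ ?_
      (hcard i)
    · intro x y h
      exact Subtype.ext (hA x.1 y.1 (x.2.trans y.2.symm) h)
    · intro x y h
      exact Subtype.ext (hB x.1 y.1 (x.2.trans y.2.symm) h)
  choose f hf using h1
  let e : A ≃ B := (Equiv.sigmaFiberEquiv l).symm.trans
    ((Equiv.sigmaCongrRight f).trans (Equiv.sigmaFiberEquiv s))
  have key : ∀ (i : ℕ) (x : A) (h : l x = i), e x = (f i ⟨x, h⟩).1 := by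
    rintro i x rfl
    rfl
  refine ⟨e, ?_, ?_⟩
  · intro x
    rw [key (l x) x rfl]
    exact (f (l x) ⟨x, rfl⟩).2
  · intro x y hxy hp
    rw [key (l x) x rfl, key (l x) y hxy.symm]
    exact hf (l x) ⟨x, rfl⟩ ⟨y, hxy.symm⟩ hp

end Pool.Agent.SGL.H66
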