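import Pool.Agent.SGL.StmtsU
import Pool.Agent.Helper62_SGL.RKS

set_option autoImplicit false

/-! Row PLN of squad SGL (MP_41797f_co): the plan. -/

noncomputable section

namespace Pool.Agent.SGL.H66

open Pool.Agent.SGE Pool.Agent.SGP Pool.Agent.SGY Pool.Agent.SGD Pool.Agent.SGL
open Pool.Agent.SGL.H62 (kx kx_v)

theorem pln_rot (p q r : ℝ × ℝ) : o p q r = o q r p := by
  unfold o
  ring

theorem pln_swap (p q r : ℝ × ℝ) : o p q r = -o q p r := by
  unfold o
  ring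

theorem pln_shift (τ x1 y1 x2 y2 x3 y3 : ℝ) :
    o (x1 + τ, y1) (x2 + τ, y2) (x3 + τ, y3) = o (x1, y1) (x2, y2) (x3, y3) := by
  unfold o
  ring

theorem pln_mem {V : Type} [Fintype V] {a b c : V} {E : V → V → Prop} {F : V → V → V → Prop}
    {N : ℕ} {v : ℕ → V} {C₁ C S : ℕ → List V} (R : Run a b c E F N v C₁ C S) (l j : ℕ)
    (hl : l ≤ j) : v l ∈ Kl v j ∪ {a, c} := by
  rcases Nat.eq_zero_or_pos l with h | h
  · right
    rw [h, R.v0]
    simp
  · left
    exact ⟨l, h, hl, rfl⟩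

theorem pln_fa {V : Type} [Fintype V] {a b c : V} {E : V → V → Prop} {F : V → V → V → Prop}
    {N : ℕ} {v : ℕ → V} {C₁ C S : ℕ → List V} (R : Run a b c E F N v C₁ C S) (i m : ℕ)
    (hi : i ≤ N + 1) (hF : F (v i) a (v m)) : i < m := by
  have hF1 := R.nt.rot _ _ _ hF
  have hF2 := R.nt.rot _ _ _ hF1
  have hE2 := R.nt.fe _ _ _ hF2
  have hzu : v m ≠ v i := by
    intro h
    rw [h] at hE2
    exact R.nt.irr _ hE2
  by_contra hcon
  have hml : m < i := by
    rcases Nat.lt_or_eq_of_le (not_lt.1 hcon) with h | h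
    · exact h
    · exact absurd (by rw [h]) hzu
  obtain ⟨j, rfl⟩ : ∃ j, i = j + 1 := ⟨i - 1, by omega⟩
  have hj : j ≤ N := by omega
  have ha : a ∈ Kl v j ∪ {a, c} := by
    right
    simp
  obtain ⟨P', Q', h1⟩ := R.fc j hj a (v m) hF1 ha (pln_mem R m j (by omega))
  obtain ⟨P, p, mid, q, Q, h2, h3, -⟩ := R.stp j hj
  have h4 : C j = (P ++ P') ++ a :: (v m :: (Q' ++ Q)) := by
    have h5 : C j = P ++ (S j ++ Q) := by
      rw [h3, h2]
      simp
    rw [h5, h1]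
    simp
  have hls := (R.st j hj).n2.ls
  have hnd := (R.st j hj).n2.nd
  rw [h4] at hls hnd
  have h6 : a ∈ v m :: (Q' ++ Q) := by
    rw [List.getLast?_append, List.getLast?_cons_cons] at hls
    have h7 : (v m :: (Q' ++ Q)).getLast? = some a := by
      rcases h8 : (v m :: (Q' ++ Q)).getLast? with _ | t
      · simp at h8
      · rw [h8] at hls
        simpa using hls
    exact List.mem_of_getLast? h7
  rw [List.nodup_append] at hnd
  exact (List.nodup_cons.1 hnd.2.1).1 h6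

/-- **PLN** -/
theorem pln (_bnd : BndStmt) (msi : MsiStmt) : PlnStmt := by
  intro V _ a b c E F N v C₁ C S R σ h j₀ m₁ hσ hh hjm hmN hσ0 hσ1 hσ2 k₀ k₁ D₀ D₁ x₀ y₀ x₁ y₁
    π₀ π₁ B T x hx0 hxi hxc _hC hXg
  classical
  obtain ⟨M, hM1, hM⟩ := msi (N + 1) (fun i => x (v i)) hxi
  obtain ⟨τ, hτ⟩ := Infinite.exists_notMem_finset
    (((Finset.range (N + 2)) ×ˢ (Finset.range (N + 2))).image
      (fun p : ℕ × ℕ => x (v p.2) - x₁ (v p.1)))
  have hτ' : ∀ i j, i ≤ N + 1 → j ≤ N + 1 → x₁ (v i) + τ ≠ x (v j) := by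
    intro i j hi hj he
    apply hτ
    rw [Finset.mem_image]
    refine ⟨(i, j), Finset.mem_product.2 ⟨Finset.mem_range.2 (by omega),
      Finset.mem_range.2 (by omega)⟩, ?_⟩
    change x (v j) - x₁ (v i) = τ
    linarith
  have hk : ∀ i, i ≤ N + 1 → kx N v (v i) = i := fun i hi => kx_v R.inj hi
  obtain ⟨X, hXd⟩ : ∃ X : ℕ → ℝ, X = fun i => if i ≤ m₁ then x (v i) else x₁ (v i) + τ :=
    ⟨_, rfl⟩
  obtain ⟨Y, hYd⟩ : ∃ Y : ℕ → ℝ, Y = fun i => if i ≤ j₀ then y₀ (v i) else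
      if i ≤ m₁ then M ^ i else y₁ (v i) := ⟨_, rfl⟩
  have X1 : ∀ i, i ≤ m₁ → X i = x (v i) := fun i hi => by
    rw [hXd]
    exact if_pos hi
  have X2 : ∀ i, m₁ < i → X i = x₁ (v i) + τ := fun i hi => by
    rw [hXd]
    exact if_neg (by omega)
  have Y0 : ∀ i, i ≤ j₀ → Y i = y₀ (v i) := fun i hi => by
    rw [hYd]
    exact if_pos hi
  have Y1 : ∀ i, j₀ < i → i ≤ m₁ → Y i = M ^ i := fun i hi hi' => by
    rw [hYd]
    change (if i ≤ j₀ then y₀ (v i) else if i ≤ m₁ then M ^ i else y₁ (v i)) = M ^ i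
    rw [if_neg (by omega), if_pos hi']
  have Y2 : ∀ i, m₁ < i → Y i = y₁ (v i) := fun i hi => by
    rw [hYd]
    change (if i ≤ j₀ then y₀ (v i) else if i ≤ m₁ then M ^ i else y₁ (v i)) = y₁ (v i)
    rw [if_neg (by omega), if_neg (by omega)]
  -- points
  have PB : ∀ i, i ≤ j₀ → ((X i, Y i) : ℝ × ℝ) = pv x₀ y₀ (v i) := by
    intro i hi
    rw [X1 i (by omega), Y0 i hi, hx0 i hi]
    rfl
  have PM : ∀ i, j₀ < i → i ≤ m₁ → ((X i, Y i) : ℝ × ℝ) = (x (v i), M ^ i) := by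
    intro i hi hi'
    rw [X1 i hi', Y1 i hi hi']
  have PT : ∀ i, m₁ < i → ((X i, Y i) : ℝ × ℝ) = (x₁ (v i) + τ, y₁ (v i)) := by
    intro i hi
    rw [X2 i hi, Y2 i hi]
  -- membership
  have mB' : ∀ i, 1 ≤ i → i ≤ j₀ → v i ∈ Kl v j₀ := fun i h1 h2 => ⟨i, h1, h2, rfl⟩
  have mB : ∀ i, i ≤ j₀ → v i ∈ Kl v j₀ ∪ {c} := by
    intro i hi
    rcases Nat.eq_zero_or_pos i with h1 | h1
    · right
      rw [h1, R.v0]
      rfl
    · left
      exact mB' i h1 hi
  have mT' : ∀ i, m₁ < i → i ≤ N → v i ∈ Inn a b c E \ Kl v m₁ := by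
    intro i hi hi'
    refine ⟨?_, ?_⟩
    · rw [← R.inn]
      exact ⟨i, by omega, hi', rfl⟩
    · rintro ⟨j, hj1, hj2, hj3⟩
      have := R.inj j i (by omega) (by omega) hj3
      omega
  have mT : ∀ i, m₁ < i → i ≤ N + 1 → v i ∈ (Inn a b c E \ Kl v m₁) ∪ {b} := by
    intro i hi hi'
    rcases Nat.lt_or_eq_of_le hi' with h1 | h1
    · left
      exact mT' i hi (by omega)
    · right
      rw [h1, R.vb]
      rfl
  have nT : ∀ i, i ≤ m₁ → v i ∉ (Inn a b c E \ Kl v m₁) ∪ {a, b} := by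
    rintro i hi (⟨h1, h2⟩ | h1)
    · rcases Nat.eq_zero_or_pos i with h3 | h3
      · rw [h3, R.v0] at h1
        exact h1.2.2.1 rfl
      · exact h2 ⟨i, h3, hi, rfl⟩
    · rcases h1 with h1 | h1
      · exact R.na i (by omega) h1
      · have h2 : v i = v (N + 1) := by
          rw [R.vb]
          exact h1
        have := R.inj i (N + 1) (by omega) (by omega) h2
        omega
  -- slices
  have tri : ∀ i, i ≤ N + 1 → (i ≤ j₀ ∧ σ i = 0) ∨ (j₀ < i ∧ i ≤ m₁ ∧ 0 < σ i ∧ σ i < h) ∨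
      (m₁ < i ∧ σ i = h) := by
    intro i hi
    rcases le_or_gt i j₀ with h1 | h1
    · exact Or.inl ⟨h1, hσ0 i h1⟩
    · rcases le_or_gt i m₁ with h2 | h2
      · exact Or.inr (Or.inl ⟨h1, h2, hσ1 i h1 h2⟩)
      · exact Or.inr (Or.inr ⟨h2, hσ2 i h2 hi⟩)
  have lt_of : ∀ i j, σ i < σ j → i < j := fun i j h1 => by
    by_contra hc
    exact absurd (hσ (not_lt.1 hc)) (not_le.2 h1)
  have same : ∀ i j, i ≤ N + 1 → j ≤ N + 1 → σ i = σ j → (i ≤ j₀ ∧ j ≤ j₀) ∨
      (j₀ < i ∧ i ≤ m₁ ∧ j₀ < j ∧ j ≤ m₁) ∨ (m₁ < i ∧ m₁ < j) := by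
    intro i j hi hj he
    rcases tri i hi with h1 | h1 | h1 <;> rcases tri j hj with h2 | h2 | h2 <;> omega
  have hσh : ∀ i, i ≤ N + 1 → σ i ≤ h := by
    intro i hi
    rcases tri i hi with h1 | h1 | h1 <;> omega
  -- faces of the sweep
  have hup : ∀ i j l, i < l → j < l → l ≤ N + 1 → j₀ < l → F (v i) (v j) (v l) →
      x (v i) < x (v j) ∧ (σ i = σ l → σ j < σ l → x (v i) < x (v l)) ∧
        (σ i < σ l → σ j = σ l → x (v l) < x (v j)) := by
    intro i j l hi hj hl hjl hF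
    obtain ⟨m, rfl⟩ : ∃ m, l = m + 1 := ⟨l - 1, by omega⟩
    have hcon := R.fc m (by omega) (v i) (v j) hF (pln_mem R i m (by omega))
      (pln_mem R j m (by omega))
    have G := hXg m (by omega) (by omega)
    exact ⟨G.up i j (by omega) (by omega) hcon, G.lo i j (by omega) (by omega) hcon,
      G.hi i j (by omega) (by omega) hcon⟩
  -- injectivity on the top
  have T_inj : ∀ u ∈ (Inn a b c E \ Kl v m₁) ∪ {b}, ∀ w ∈ (Inn a b c E \ Kl v m₁) ∪ {b},
      u ≠ w → x₁ u ≠ x₁ w := by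
    intro u hu w hw hne
    rcases hu with hu | hu <;> rcases hw with hw | hw
    · obtain ⟨i, hi1, hi2, rfl⟩ := T.psu u hu
      obtain ⟨j, hj1, hj2, rfl⟩ := T.psu w hw
      have hij : i ≠ j := fun h => hne (by rw [h])
      rcases lt_or_gt_of_ne hij with h1 | h1
      · exact (T.xd i j hi1 h1 hj2).ne
      · exact (T.xd j i hj1 h1 hi2).ne'
    · have h1 : w = b := hw
      rw [h1]
      exact (T.xb u hu).ne'
    · have h1 : u = b := hu
      rw [h1]
      exact (T.xb w hw).ne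
    · have h1 : u = b := hu
      have h2 : w = b := hw
      exact absurd (h1.trans h2.symm) hne
  have vne : ∀ i j, i ≤ N + 1 → j ≤ N + 1 → i ≠ j → v i ≠ v j := fun i j hi hj hne he =>
    hne (R.inj i j hi hj he)
  -- the fields for indices
  have fxd : ∀ i j, i ≤ N + 1 → j ≤ N + 1 → i ≠ j → X i ≠ X j := by
    intro i j hi hj hne
    rcases le_or_gt i m₁ with h1 | h1 <;> rcases le_or_gt j m₁ with h2 | h2
    · rw [X1 i h1, X1 j h2]
      exact fun he => hne (hxi i j hi hj he)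
    · rw [X1 i h1, X2 j h2]
      exact (hτ' j i hj hi).symm
    · rw [X2 i h1, X1 j h2]
      exact hτ' i j hi hj
    · rw [X2 i h1, X2 j h2]
      intro he
      exact T_inj _ (mT i h1 hi) _ (mT j h2 hj) (vne i j hi hj hne) (by linarith)
  have fyd : ∀ i j, i ≤ N + 1 → j ≤ N + 1 → i ≠ j → σ i = σ j → Y i ≠ Y j := by
    intro i j hi hj hne hs
    rcases same i j hi hj hs with ⟨h1, h2⟩ | ⟨h1, h2, h3, h4⟩ | ⟨h1, h2⟩
    · rw [Y0 i h1, Y0 j h2]
      exact B.yd _ (mB i h1) _ (mB j h2) (vne i j hi hj hne)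
    · rw [Y1 i h1 h2, Y1 j h3 h4]
      rcases lt_or_gt_of_ne hne with h5 | h5
      · exact (pow_lt_pow_right₀ hM1 h5).ne
      · exact (pow_lt_pow_right₀ hM1 h5).ne'
    · rw [Y2 i h1, Y2 j h2]
      exact T.yd _ (mT i h1 hi) _ (mT j h2 hj) (vne i j hi hj hne)
  have gmid : ∀ i j l, i < l → j < l → l ≤ N + 1 → i ≠ j →
      o (x (v i), M ^ i) (x (v j), M ^ j) (x (v l), M ^ l) ≠ 0 := by
    intro i j l hi hj hl hne
    rcases lt_trichotomy (x (v i)) (x (v j)) with h1 | h1 | h1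
    · exact (hM i j l hi hj hl h1).ne'
    · exact absurd (hxi i j (by omega) (by omega) h1) hne
    · rw [pln_swap]
      have := hM j i l hj hi hl h1
      exact neg_ne_zero.2 this.ne'
  have fgp : ∀ i j l, i ≤ N + 1 → j ≤ N + 1 → l ≤ N + 1 → σ i = σ j → σ j = σ l → i ≠ j →
      i ≠ l → j ≠ l → o (X i, Y i) (X j, Y j) (X l, Y l) ≠ 0 := by
    intro i j l hi hj hl hs1 hs2 n1 n2 n3
    rcases same i j hi hj hs1 with ⟨h1, h2⟩ | ⟨h1, h2, h3, h4⟩ | ⟨h1, h2⟩
    · have h5 : l ≤ j₀ := by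
        rcases same j l hj hl hs2 with h | h | h <;> omega
      rw [PB i h1, PB j h2, PB l h5]
      exact B.gp _ (mB i h1) _ (mB j h2) _ (mB l h5) (vne i j hi hj n1) (vne i l hi hl n2)
        (vne j l hj hl n3)
    · have h5 : j₀ < l ∧ l ≤ m₁ := by
        rcases same j l hj hl hs2 with h | h | h <;> omega
      rw [PM i h1 h2, PM j h3 h4, PM l h5.1 h5.2]
      by_cases c1 : i < l ∧ j < l
      · exact gmid i j l c1.1 c1.2 hl n1
      · by_cases c2 : j < i ∧ l < i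
        · rw [pln_rot]
          exact gmid j l i c2.1 c2.2 hi n3
        · rw [pln_rot, pln_rot]
          exact gmid l i j (by omega) (by omega) hj (Ne.symm n2)
    · have h5 : m₁ < l := by
        rcases same j l hj hl hs2 with h | h | h <;> omega
      rw [PT i h1, PT j h2, PT l h5, pln_shift]
      exact T.gp _ (mT i h1 hi) _ (mT j h2 hj) _ (mT l h5 hl) (vne i j hi hj n1)
        (vne i l hi hl n2) (vne j l hj hl n3)
  have fmid : ∀ i j l, i < l → j < l → l ≤ N + 1 → j₀ < l → F (v i) (v j) (v l) →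
      0 < o (x (v i), M ^ i) (x (v j), M ^ j) (x (v l), M ^ l) := by
    intro i j l hi hj hl hjl hF
    exact hM i j l hi hj hl (hup i j l hi hj hl hjl hF).1
  have ff3 : ∀ i j l, i ≤ N + 1 → j ≤ N + 1 → l ≤ N + 1 → F (v i) (v j) (v l) → σ i = σ j →
      σ j = σ l → 0 < o (X i, Y i) (X j, Y j) (X l, Y l) := by
    intro i j l hi hj hl hF hs1 hs2
    have hF1 := R.nt.rot _ _ _ hF
    have hF2 := R.nt.rot _ _ _ hF1
    have hE := R.nt.fe _ _ _ hF
    have hE1 := R.nt.fe _ _ _ hF1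
    have hE2 := R.nt.fe _ _ _ hF2
    have n1 : i ≠ j := by
      rintro rfl
      exact R.nt.irr _ hE
    have n3 : j ≠ l := by
      rintro rfl
      exact R.nt.irr _ hE1
    have n2 : i ≠ l := by
      rintro rfl
      exact R.nt.irr _ hE2
    rcases same i j hi hj hs1 with ⟨h1, h2⟩ | ⟨h1, h2, h3, h4⟩ | ⟨h1, h2⟩
    · have h5 : l ≤ j₀ := by
        rcases same j l hj hl hs2 with h | h | h <;> omega
      rw [PB i h1, PB j h2, PB l h5]
      exact B.f3 _ (mB i h1) _ (mB j h2) _ (mB l h5) hF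
    · have h5 : j₀ < l ∧ l ≤ m₁ := by
        rcases same j l hj hl hs2 with h | h | h <;> omega
      rw [PM i h1 h2, PM j h3 h4, PM l h5.1 h5.2]
      by_cases c1 : i < l ∧ j < l
      · exact fmid i j l c1.1 c1.2 hl h5.1 hF
      · by_cases c2 : j < i ∧ l < i
        · rw [pln_rot]
          exact fmid j l i c2.1 c2.2 hi h1 hF1
        · rw [pln_rot, pln_rot]
          exact fmid l i j (by omega) (by omega) hj h3 hF2
    · have h5 : m₁ < l := by
        rcases same j l hj hl hs2 with h | h | h <;> omega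
      rw [PT i h1, PT j h2, PT l h5, pln_shift]
      exact T.f3 _ (mT i h1 hi) _ (mT j h2 hj) _ (mT l h5 hl) hF
  have ff1 : ∀ i j l, i ≤ N + 1 → j ≤ N + 1 → l ≤ N + 1 → F (v i) (v j) (v l) → σ i < σ l →
      σ j < σ l → X i < X j := by
    intro i j l hi hj hl hF hs1 hs2
    have h1 := lt_of i l hs1
    have h2 := lt_of j l hs2
    have h3 : j₀ < l ∧ i ≤ m₁ ∧ j ≤ m₁ := by
      have t1 := hσh l hl
      rcases tri i hi with h | h | h <;> rcases tri j hj with h' | h' | h' <;>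
        rcases tri l hl with h'' | h'' | h'' <;> omega
    rw [X1 i h3.2.1, X1 j h3.2.2]
    exact (hup i j l h1 h2 hl h3.1 hF).1
  have ff2 : ∀ i j l, i ≤ N + 1 → j ≤ N + 1 → l ≤ N + 1 → F (v i) (v j) (v l) → σ i < σ j →
      σ j = σ l → X l < X j := by
    intro i j l hi hj hl hF hs1 hs2
    have hF1 := R.nt.rot _ _ _ hF
    have hF2 := R.nt.rot _ _ _ hF1
    have hE1 := R.nt.fe _ _ _ hF1
    have n3 : j ≠ l := by
      rintro rfl
      exact R.nt.irr _ hE1
    have h1 := lt_of i j hs1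
    have h2 := lt_of i l (by omega)
    rcases same j l hj hl hs2 with ⟨h3, h4⟩ | ⟨h3, h4, h5, h6⟩ | ⟨h3, h4⟩
    · have := hσ0 j h3
      omega
    · rw [X1 l h6, X1 j h4]
      rcases lt_or_gt_of_ne n3 with h7 | h7
      · exact (hup i j l h2 h7 hl h5 hF).2.2 (by omega) hs2
      · exact (hup l i j h7 h1 hj h3 hF2).2.1 hs2.symm hs1
    · rw [X2 l h4, X2 j h3]
      have h7 : i ≤ m₁ := by
        have t1 := hσh j hj
        rcases tri i hi with h | h | h <;> omega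
      have := T.f2 _ (nT i h7) _ (mT j h3 hj) _ (mT l h4 hl) hF
      linarith
  have ffa : ∀ i l, i ≤ N + 1 → l ≤ N + 1 → F (v i) a (v l) →
      σ i < σ l ∨ (σ i = σ l ∧ Y i < Y l) := by
    intro i l hi hl hF
    have h1 := pln_fa R i l hi hF
    rcases Nat.lt_or_eq_of_le (hσ h1.le) with h2 | h2
    · exact Or.inl h2
    · right
      refine ⟨h2, ?_⟩
      rcases same i l hi hl h2 with ⟨h3, h4⟩ | ⟨h3, h4, h5, h6⟩ | ⟨h3, h4⟩
      · rw [Y0 i h3, Y0 l h4]
        exact B.fa _ (mB i h3) _ (mB l h4) hF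
      · rw [Y1 i h3 h4, Y1 l h5 h6]
        exact pow_lt_pow_right₀ hM1 h1
      · rw [Y2 i h3, Y2 l h4]
        exact T.fa _ (mT i h3 hi) _ (mT l h4 hl) hF
  -- representation of the vertices
  have hrep : ∀ u, Rel E u → u ≠ a → ∃ i, i ≤ N + 1 ∧ v i = u := by
    intro u hu ha
    by_cases hc : u = c
    · exact ⟨0, by omega, by rw [R.v0, hc]⟩
    by_cases hb' : u = b
    · exact ⟨N + 1, le_rfl, by rw [R.vb, hb']⟩
    have h1 : u ∈ Inn a b c E := ⟨ha, hb', hc, hu⟩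
    rw [← R.inn] at h1
    obtain ⟨i, -, h3, h4⟩ := h1
    exact ⟨i, by omega, h4⟩
  have relx : ∀ x y z, F x y z → Rel E x := fun x y z h => ⟨y, R.nt.fe _ _ _ h⟩
  have hs : ∀ i, i ≤ N + 1 → σ (kx N v (v i)) = σ i := fun i hi => by
    rw [hk i hi]
  have hX' : ∀ i, i ≤ N + 1 → X (kx N v (v i)) = X i := fun i hi => by
    rw [hk i hi]
  have hY' : ∀ i, i ≤ N + 1 → Y (kx N v (v i)) = Y i := fun i hi => by
    rw [hk i hi]
  have hP : ∀ i, i ≤ N + 1 → pv (fun u => X (kx N v u)) (fun u => Y (kx N v u)) (v i) =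
      (X i, Y i) := fun i hi => by
    change (X (kx N v (v i)), Y (kx N v (v i))) = (X i, Y i)
    rw [hX' i hi, hY' i hi]
  have hne0 : ∀ i, v i ≠ c → 1 ≤ i := by
    intro i hi
    rcases Nat.eq_zero_or_pos i with h1 | h1
    · exact absurd (by rw [h1, R.v0]) hi
    · exact h1
  refine ⟨fun u => σ (kx N v u), fun u => X (kx N v u), fun u => Y (kx N v u), τ, hs, ?_, ?_, ?_⟩
  · refine ⟨?_, ?_, ?_, ?_, ?_, ?_, ?_, ?_, ?_, ?_, ?_, ?_, ?_, ?_⟩
    · rw [← R.v0, hs 0 (by omega)]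
      exact hσ0 0 (by omega)
    · rw [← R.vb, hs (N + 1) le_rfl]
      exact hσ2 (N + 1) (by omega) le_rfl
    · rintro u ⟨hu, hua⟩
      obtain ⟨i, hi, rfl⟩ := hrep u hu hua
      rw [hs i hi]
      exact hσh i hi
    · rintro u ⟨hu, hua⟩ w ⟨hw, hwa⟩ hne
      obtain ⟨i, hi, rfl⟩ := hrep u hu hua
      obtain ⟨j, hj, rfl⟩ := hrep w hw hwa
      rw [hX' i hi, hX' j hj]
      exact fxd i j hi hj (fun h => hne (by rw [h]))
    · rintro u ⟨hu, hua⟩ w ⟨hw, hwa⟩ hne he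
      obtain ⟨i, hi, rfl⟩ := hrep u hu hua
      obtain ⟨j, hj, rfl⟩ := hrep w hw hwa
      rw [hs i hi, hs j hj] at he
      rw [hY' i hi, hY' j hj]
      exact fyd i j hi hj (fun h => hne (by rw [h])) he
    · rintro u ⟨hu, hua⟩ w ⟨hw, hwa⟩ z ⟨hz, hza⟩ e1 e2 n1 n2 n3
      obtain ⟨i, hi, rfl⟩ := hrep u hu hua
      obtain ⟨j, hj, rfl⟩ := hrep w hw hwa
      obtain ⟨l, hl, rfl⟩ := hrep z hz hza
      rw [hs i hi, hs j hj] at e1
      rw [hs j hj, hs l hl] at e2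
      rw [hP i hi, hP j hj, hP l hl]
      exact fgp i j l hi hj hl e1 e2 (fun h => n1 (by rw [h])) (fun h => n2 (by rw [h]))
        (fun h => n3 (by rw [h]))
    · intro u w z hF hua hwa hza e1 e2
      have hF1 := R.nt.rot _ _ _ hF
      have hF2 := R.nt.rot _ _ _ hF1
      obtain ⟨i, hi, rfl⟩ := hrep u (relx _ _ _ hF) hua
      obtain ⟨j, hj, rfl⟩ := hrep w (relx _ _ _ hF1) hwa
      obtain ⟨l, hl, rfl⟩ := hrep z (relx _ _ _ hF2) hza
      rw [hs i hi, hs j hj] at e1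
      rw [hs j hj, hs l hl] at e2
      rw [hP i hi, hP j hj, hP l hl]
      exact ff3 i j l hi hj hl hF e1 e2
    · intro u w z hF hua hwa hza e1 e2
      have hF1 := R.nt.rot _ _ _ hF
      have hF2 := R.nt.rot _ _ _ hF1
      obtain ⟨i, hi, rfl⟩ := hrep u (relx _ _ _ hF) hua
      obtain ⟨j, hj, rfl⟩ := hrep w (relx _ _ _ hF1) hwa
      obtain ⟨l, hl, rfl⟩ := hrep z (relx _ _ _ hF2) hza
      rw [hs i hi, hs l hl] at e1
      rw [hs j hj, hs l hl] at e2
      rw [hX' i hi, hX' j hj]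
      exact ff1 i j l hi hj hl hF e1 e2
    · intro u w z hF hua hwa hza e1 e2
      have hF1 := R.nt.rot _ _ _ hF
      have hF2 := R.nt.rot _ _ _ hF1
      obtain ⟨i, hi, rfl⟩ := hrep u (relx _ _ _ hF) hua
      obtain ⟨j, hj, rfl⟩ := hrep w (relx _ _ _ hF1) hwa
      obtain ⟨l, hl, rfl⟩ := hrep z (relx _ _ _ hF2) hza
      rw [hs i hi, hs j hj] at e1
      rw [hs j hj, hs l hl] at e2
      rw [hX' l hl, hX' j hj]
      exact ff2 i j l hi hj hl hF e1 e2
    · intro u z hF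
      have hF1 := R.nt.rot _ _ _ hF
      have hF2 := R.nt.rot _ _ _ hF1
      have hE := R.nt.fe _ _ _ hF
      have hE1 := R.nt.fe _ _ _ hF1
      have hua : u ≠ a := by
        rintro rfl
        exact R.nt.irr _ hE
      have hza : z ≠ a := by
        rintro rfl
        exact R.nt.irr _ hE1
      obtain ⟨i, hi, rfl⟩ := hrep u (relx _ _ _ hF) hua
      obtain ⟨l, hl, rfl⟩ := hrep z (relx _ _ _ hF2) hza
      rw [hs i hi, hs l hl, hY' i hi, hY' l hl]
      exact ffa i l hi hl hF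
    · rintro u ⟨hu, hua⟩ huc hsu
      obtain ⟨i, hi, rfl⟩ := hrep u hu hua
      have h1 := hne0 i huc
      rw [hs i hi] at hsu
      have h2 : i ≤ m₁ := by
        rcases tri i hi with h | h | h <;> omega
      have h3 : X (kx N v c) = X 0 := by
        rw [← R.v0]
        exact hX' 0 (by omega)
      rw [h3, hX' i hi, X1 0 (by omega), X1 i h2]
      exact hxc i h1 hi
    · rintro u ⟨hu, hua⟩ huc hsu
      obtain ⟨i, hi, rfl⟩ := hrep u hu hua
      have h1 := hne0 i huc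
      rw [hs i hi] at hsu
      have h2 : i ≤ j₀ := by
        rcases tri i hi with h | h | h <;> omega
      have h3 : Y (kx N v c) = y₀ c := by
        have h4 : Y (kx N v c) = Y 0 := by
          rw [← R.v0]
          exact hY' 0 (by omega)
        rw [h4, Y0 0 (by omega), R.v0]
      rw [h3, hY' i hi, Y0 i h2]
      exact B.yc _ (mB' i h1 h2)
    · rintro u ⟨hu, hua⟩ hub hsu
      obtain ⟨i, hi, rfl⟩ := hrep u hu hua
      rw [hs i hi] at hsu
      have h1 : i ≤ N := by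
        rcases Nat.lt_or_eq_of_le hi with h2 | h2
        · omega
        · exact absurd (by rw [h2, R.vb]) hub
      have h2 : m₁ < i := by
        rcases tri i hi with h | h | h <;> omega
      have h3 : X (kx N v b) = x₁ b + τ := by
        have h4 : X (kx N v b) = X (N + 1) := by
          rw [← R.vb]
          exact hX' (N + 1) le_rfl
        rw [h4, X2 (N + 1) (by omega), R.vb]
      rw [h3, hX' i hi, X2 i h2]
      have := T.xb _ (mT' i h2 h1)
      linarith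
    · rintro u ⟨hu, hua⟩ hub hsu
      obtain ⟨i, hi, rfl⟩ := hrep u hu hua
      rw [hs i hi] at hsu
      have h1 : i ≤ N := by
        rcases Nat.lt_or_eq_of_le hi with h2 | h2
        · omega
        · exact absurd (by rw [h2, R.vb]) hub
      have h2 : m₁ < i := by
        rcases tri i hi with h | h | h <;> omega
      have h3 : Y (kx N v b) = y₁ b := by
        have h4 : Y (kx N v b) = Y (N + 1) := by
          rw [← R.vb]
          exact hY' (N + 1) le_rfl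
        rw [h4, Y2 (N + 1) (by omega), R.vb]
      rw [h3, hY' i hi, Y2 i h2]
      exact T.yb _ (mT' i h2 h1)
  · intro u hu
    obtain ⟨i, hi, rfl⟩ : ∃ i, i ≤ j₀ ∧ v i = u := by
      rcases hu with ⟨i, h1, h2, h3⟩ | h1
      · exact ⟨i, h2, h3⟩
      · have h2 : u = c := h1
        exact ⟨0, by omega, by rw [R.v0, h2]⟩
    change X (kx N v (v i)) = x₀ (v i) ∧ Y (kx N v (v i)) = y₀ (v i)
    rw [hX' i (by omega), hY' i (by omega), X1 i (by omega), Y0 i hi]
    exact ⟨hx0 i hi, rfl⟩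
  · intro u hu
    obtain ⟨i, hi, hi', rfl⟩ : ∃ i, m₁ < i ∧ i ≤ N + 1 ∧ v i = u := by
      rcases hu with ⟨h1, h2⟩ | h1
      · rw [← R.inn] at h1
        obtain ⟨i, h3, h4, h5⟩ := h1
        refine ⟨i, ?_, by omega, h5⟩
        by_contra hc
        exact h2 ⟨i, h3, not_lt.1 hc, h5⟩
      · have h2 : u = b := h1
        exact ⟨N + 1, by omega, le_rfl, by rw [R.vb, h2]⟩
    change X (kx N v (v i)) = x₁ (v i) + τ ∧ Y (kx N v (v i)) = y₁ (v i)
    rw [hX' i hi', hY' i hi', X2 i hi, Y2 i hi]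
    exact ⟨rfl, rfl⟩

end Pool.Agent.SGL.H66
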